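import Mathlib
import Pool.Agent.N414.OPN.Final
set_option autoImplicit false

/-!
# The counting function of the (odd) perfect numbers: an explicit constant in Wirsing's theorem

For every `ε > 0` and all `x` large in terms of `ε` only:

* at most `x ^ ((log 2 / 2 + ε) / log log x)` odd `n ≤ x` divide `σ(n)`; in particular this
  bounds the number of odd perfect numbers up to `x`;
* at most `x ^ ((log 2 + ε) / log log x)` integers `n ≤ x` divide `σ(n)`;
* uniformly in `a, b`: at most `x ^ ((log 2 + ε) / log log x)` integers `n ≤ x` satisfy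
  `b σ(n) = a n`, and at most `x ^ ((log 2 / 2 + ε) / log log x)` odd ones, if the power of two
  dividing `a` is at most `1 + log x`.

Wirsing (1959): at most `x ^ (W / log log x)`, with an unspecified constant `W`.

Proof.  Wirsing's reconstruction: with `y` about `log x / √(log log x)`, write `n = A B` with `A`
composed of primes `≤ y` and `B` of primes `> y`.  Given `a / b`, the number `n` is determined by
`A` and by the sequence of the exponents of `B`, in the order in which the primes are found
(`reach`).  The sum of the exponents is at most `(1 + o(1)) log x / log log x`, which leaves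
`x ^ ((log 2 + o(1)) / log log x)` sequences; for odd `n` all but `O(log log x)` of the exponents
are even, which halves the constant.  There are only `x ^ (o(1) / log log x)` numbers `A`
(`smooth_count`, Chebyshev's bound for `π(y)`).
-/

namespace Pool.Agent.Results.MP_f02ea4_nt.CountingConstant
open Finset Filter Real
open Pool.Agent.N414.OPN

theorem result (ε : ℝ) (hε : 0 < ε) : ∀ᶠ x : ℕ in atTop,
    (((Icc 1 x).filter (fun n => Odd n ∧ n ∣ ∑ d ∈ n.divisors, d)).card : ℝ) ≤
      (x : ℝ) ^ ((Real.log 2 / 2 + ε) / Real.log (Real.log x)) ∧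
    (((Icc 1 x).filter (fun n => n ∣ ∑ d ∈ n.divisors, d)).card : ℝ) ≤
      (x : ℝ) ^ ((Real.log 2 + ε) / Real.log (Real.log x)) ∧
    ∀ a b : ℕ, 0 < a →
      (((Icc 1 x).filter (fun n => b * ∑ d ∈ n.divisors, d = a * n)).card : ℝ) ≤
        (x : ℝ) ^ ((Real.log 2 + ε) / Real.log (Real.log x)) ∧
      ((∀ j : ℕ, 2 ^ j ∣ a → (2 : ℝ) ^ j ≤ 1 + Real.log x) →
        (((Icc 1 x).filter (fun n => Odd n ∧ b * ∑ d ∈ n.divisors, d = a * n)).card : ℝ) ≤
          (x : ℝ) ^ ((Real.log 2 / 2 + ε) / Real.log (Real.log x))) := by
  filter_upwards [main ε hε] with x hx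
  obtain ⟨h1, h2, h3⟩ := hx
  refine ⟨?_, h2, fun a b ha => ⟨(h3 a b ha).1, fun h4 => ?_⟩⟩
  · simp only [Nat.odd_iff]
    exact h1
  · simp only [Nat.odd_iff]
    exact (h3 a b ha).2 h4

end Pool.Agent.Results.MP_f02ea4_nt.CountingConstant
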