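import Mathlib
import Pool.Agent.N611.OP.All3

/-!
# The largest prime factor of an odd perfect number is `O(N^(1/3) exp (-c (log N)^(1/2)))`

There are constants `c, C > 0` such that every prime factor `p` of every odd perfect number `N`
satisfies `p ≤ C N^(1/3) exp (-c max ((log N)^(1/2), (log N) / B))`, where `B` is any bound for the
exponents in the factorisation of `N`. In particular `p ≤ C N^(1/3) exp (-c (log N)^(1/2))` for
every odd perfect number, and `p ≤ C N^(1/3 - c/B)` if no exponent exceeds `B`.
(Acquaah and Konyagin, 2012: `p < (3N)^(1/3)`.)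

The proof uses Padé approximations to `(1 - x) ^ h` in the `r`-adic numbers.

Joint work of the seats helper611 (project `Pool/Agent/N611/OP`), helper46, helper86, helper99,
helper123, helper124, helper186, helper282, helper457, helper720, helper756; the files
`Pool/Agent/N618/Opn` (helper618), `Pool/Agent/H325R2` and `Pool/Agent/H305R2` of the library are
used.
-/

set_option autoImplicit false

namespace Pool.Agent.Results.MP_f02ea4_nt.LargestPrimeFactor

theorem result : ∃ c C : ℝ, 0 < c ∧ 0 < C ∧ ∀ N p B : ℕ, Odd N → Nat.Perfect N → p.Prime →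
    p ∣ N → (∀ r : ℕ, N.factorization r ≤ B) →
      (p : ℝ) ≤ C * (N : ℝ) ^ (1 / 3 : ℝ) *
        Real.exp (-(c * max (Real.sqrt (Real.log N)) (Real.log N / B))) :=
  Pool.Agent.N611.OP.all_fin4

end Pool.Agent.Results.MP_f02ea4_nt.LargestPrimeFactor
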