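import Mathlib
import Pool.Agent.N618.Opn.Cases
set_option autoImplicit false
namespace Pool.Agent.Results.MP_f02ea4_nt.RadicalThreeFifths
open Finset Pool.Agent.H325R2.Opn Pool.Agent.N618.Opn

theorem main (N : ℕ) (hodd : Odd N) (hperf : Nat.Perfect N) :
    10 * ∑ r ∈ N.primeFactors, lg r ≤ 1000 * lg 2 + 6 * lg N := by
  have hN0 : 0 < N := hperf.2
  have hN := lg_nonneg N
  have ℓ0 := lg2_pos
  by_cases hall : ∀ r ∈ N.primeFactors, 2 ≤ N.factorization r
  · have h1 : lg N = ∑ r ∈ N.primeFactors, x N r := by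
      conv_lhs => rw [← Nat.prod_factorization_pow_eq_self hN0.ne']
      rw [Finsupp.prod, Nat.support_factorization, lg_prod _ _ (fun s hs =>
        pow_pos (Nat.prime_of_mem_primeFactors hs).pos _)]
      apply Finset.sum_congr rfl
      intro s _
      rw [lg_pow]; rfl
    have h2 : ∑ r ∈ N.primeFactors, 2 * lg r ≤ ∑ r ∈ N.primeFactors, x N r := by
      apply Finset.sum_le_sum
      intro r hr
      unfold x
      have h3 : (2 : ℝ) ≤ N.factorization r := by exact_mod_cast hall r hr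
      exact mul_le_mul_of_nonneg_right h3 (lg_nonneg r)
    rw [← Finset.mul_sum, ← h1] at h2
    linarith
  · push Not at hall
    obtain ⟨p, hp, hv⟩ := hall
    have hpos := (Nat.prime_of_mem_primeFactors hp).factorization_pos_of_dvd hN0.ne'
      (Nat.dvd_of_mem_primeFactors hp)
    have C : Ctx N p := ⟨hodd, hperf, hp, by omega⟩
    have h1 := C.main_log
    have h2 := C.lgN
    have h3 : ∑ r ∈ N.primeFactors, lg r = lg p + ∑ r ∈ S N p, lg r := by
      rw [← Finset.add_sum_erase _ _ hp]; rfl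
    have h4 : LE N p = ∑ r ∈ S N p, x N r - 2 * ∑ r ∈ S N p, lg r := by
      unfold Pool.Agent.N618.Opn.LE
      rw [Finset.sum_sub_distrib, Finset.mul_sum]
    rw [h3]
    linarith

/-- The radical of every odd perfect number `N` satisfies `rad(N) ≤ 2 ^ 100 * N ^ (3 / 5)`. -/
theorem result (N : ℕ) (hodd : Odd N) (hperf : Nat.Perfect N) :
    ((∏ p ∈ N.primeFactors, p : ℕ) : ℝ) ≤ 2 ^ 100 * (N : ℝ) ^ (3 / 5 : ℝ) := by
  have hN0 : 0 < N := hperf.2
  have hN : (0 : ℝ) < N := by exact_mod_cast hN0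
  have h1 := main N hodd hperf
  have h2 : lg (∏ p ∈ N.primeFactors, p) = ∑ r ∈ N.primeFactors, lg r :=
    lg_prod _ _ (fun r hr => (Nat.prime_of_mem_primeFactors hr).pos)
  rw [← h2] at h1
  unfold lg at h1
  have hR : (0 : ℝ) < ((∏ p ∈ N.primeFactors, p : ℕ) : ℝ) := by
    exact_mod_cast Finset.prod_pos (fun r hr => (Nat.prime_of_mem_primeFactors hr).pos)
  have hpos : (0 : ℝ) < 2 ^ 100 * (N : ℝ) ^ (3 / 5 : ℝ) := by positivity
  rw [← Real.log_le_log_iff hR hpos, Real.log_mul (by positivity) (by positivity), Real.log_pow,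
    Real.log_rpow hN]
  push_cast at h1 ⊢
  linarith

end Pool.Agent.Results.MP_f02ea4_nt.RadicalThreeFifths
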