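import Mathlib
import Pool.Agent.N671.OPN.SMain

/-!
# The part of an odd perfect number composed of a fixed finite set of primes

Let `S` be a finite set of primes and `N_S` the largest divisor of `N` all of whose prime factors lie
in `S`.  For odd perfect `N` we have `N_S ∣ 2 N = ∏ σ(q ^ e)`.

* For `q ∈ S` the `S`-part of `σ(q ^ e)` is `O(e + 1)` (lifting lemma).
* For every prime `r` and `a ≥ 2` the `S`-part of `σ(r ^ a)` is at most `C (r ^ a) ^ (1 / 2 + ε)`: by
  Ridout's theorem it is at most `C r ^ (1 + ε)` for fixed `a`, for large `a` use the lifting lemma.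
* The only prime with exponent one is the Euler prime `π`.  Let `H` be the `S`-part of `π + 1`, and
  `π ∣ σ(t ^ b)`, `t ^ b ∥ N`.  If `t ∈ S` then `t ^ (b + 1) + ((t - 1) m - 1) = (t - 1) m (π + 1)`
  with `σ(t ^ b) = π m`, and Ridout's theorem gives `π H ≤ C t ^ (b (1 + ε))`; if `t ∉ S` then the
  `S`-part of `σ(t ^ b)` is at most `σ(t ^ b) / π`.
-/

set_option autoImplicit false

namespace Pool.Agent.Results.MP_f02ea4_nt.SmoothPartTwoFifths

open Finset
open Pool.Agent.N671.OPN

/-- a prime `p` with `p ∤ N` may be removed from `S` -/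
lemma spart_erase {S : Finset ℕ} {N : ℕ} (h : N.factorization 2 = 0) :
    spart S N = spart (S.erase 2) N := by
  unfold spart
  by_cases h2 : 2 ∈ S
  · rw [← mul_prod_erase _ _ h2, h, pow_zero, one_mul]
  · rw [erase_eq_of_notMem h2]

/-- Let `S` be a finite set of primes and `δ > 0`.  There is a constant `C` such that for every odd
perfect number `N` the `S`-part `N_S = ∏ p ∈ S, p ^ v_p(N)` satisfies
(1) `N_S ≤ C N ^ (2 / 5 + δ)`;
(2) `N_S ≤ C N ^ (1 / 3 + δ)` if no prime outside `S` divides `N` exactly once;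
(3) `N_S ^ 3 p ≤ C N ^ (1 + δ) H ^ 2` if the prime `p` outside `S` divides `N` exactly once, where `H`
is the `S`-part of `p + 1`. -/
theorem result (S : Finset ℕ) (hS : ∀ p ∈ S, p.Prime) (δ : ℝ) (hδ : 0 < δ) :
    ∃ C : ℝ, 0 < C ∧ ∀ N : ℕ, Odd N → N.Perfect →
      ((∏ p ∈ S, p ^ N.factorization p : ℕ) : ℝ) ≤ C * (N : ℝ) ^ (2 / 5 + δ) ∧
      ((∀ p ∈ N.primeFactors, N.factorization p = 1 → p ∈ S) →
        ((∏ p ∈ S, p ^ N.factorization p : ℕ) : ℝ) ≤ C * (N : ℝ) ^ (1 / 3 + δ)) ∧
      (∀ p ∈ N.primeFactors, N.factorization p = 1 → p ∉ S →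
        ((∏ q ∈ S, q ^ N.factorization q : ℕ) : ℝ) ^ 3 * (p : ℝ) ≤
          C * (N : ℝ) ^ (1 + δ) * ((∏ q ∈ S, q ^ (p + 1).factorization q : ℕ) : ℝ) ^ 2) := by
  classical
  have hS' : ∀ p ∈ S.erase 2, p.Prime := fun p hp => hS p (mem_erase.mp hp).2
  obtain ⟨C, hC⟩ := log_bounds (S := S.erase 2) hS' (notMem_erase 2 S) hδ
  refine ⟨Real.exp C, Real.exp_pos C, fun N hodd hN => ?_⟩
  obtain ⟨h1, h2, h3⟩ := hC N hodd hN
  have hN0 : (0 : ℝ) < N := by exact_mod_cast hN.2
  have hv2 : N.factorization 2 = 0 := by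
    refine Nat.factorization_eq_zero_of_not_dvd fun h => ?_
    obtain ⟨k, hk⟩ := hodd
    omega
  have hsp : (∏ p ∈ S, p ^ N.factorization p : ℕ) = spart (S.erase 2) N := by
    rw [← spart_erase hv2]; rfl
  have hpos : (0 : ℝ) < (spart (S.erase 2) N : ℝ) := by exact_mod_cast spart_pos hS' N
  rw [hsp]
  have key : ∀ c : ℝ, Real.log (spart (S.erase 2) N) ≤ c * Real.log N + C →
      (spart (S.erase 2) N : ℝ) ≤ Real.exp C * (N : ℝ) ^ c := by
    intro c hc
    rw [← Real.log_le_log_iff hpos (by positivity), Real.log_mul (Real.exp_ne_zero C)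
      (by positivity), Real.log_exp, Real.log_rpow hN0]
    linarith
  refine ⟨key _ h3, fun hc => key _ (h1 fun p hp hp1 => ?_), fun p hp hp1 hpS => ?_⟩
  · refine mem_erase.mpr ⟨fun h => ?_, hc p hp hp1⟩
    rw [h, hv2] at hp1
    exact zero_ne_one hp1
  · have h4 := h2 p hp hp1 (fun h => hpS (mem_erase.mp h).2)
    have hp' := Nat.prime_of_mem_primeFactors hp
    have hp0 : (0 : ℝ) < p := by exact_mod_cast hp'.pos
    have h5 : spart (S.erase 2) (p + 1) ≤ ∏ q ∈ S, q ^ (p + 1).factorization q := by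
      unfold spart
      refine prod_le_prod_of_subset_of_one_le' (erase_subset _ _) fun q hq _ => ?_
      exact Nat.one_le_pow _ _ (hS q hq).pos
    have h6 : (0 : ℝ) < (spart (S.erase 2) (p + 1) : ℝ) := by exact_mod_cast spart_pos hS' _
    have h7 : Real.log (spart (S.erase 2) (p + 1)) ≤
        Real.log ((∏ q ∈ S, q ^ (p + 1).factorization q : ℕ) : ℝ) :=
      Real.log_le_log h6 (by exact_mod_cast h5)
    have h8 : (0 : ℝ) < ((∏ q ∈ S, q ^ (p + 1).factorization q : ℕ) : ℝ) :=
      lt_of_lt_of_le h6 (by exact_mod_cast h5)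
    rw [← Real.log_le_log_iff (by positivity) (by positivity), Real.log_mul (by positivity)
      hp0.ne', Real.log_mul (by positivity) (by positivity), Real.log_mul (Real.exp_ne_zero C)
      (by positivity), Real.log_exp, Real.log_rpow hN0, Real.log_pow, Real.log_pow]
    push_cast at h7 ⊢
    linarith

end Pool.Agent.Results.MP_f02ea4_nt.SmoothPartTwoFifths
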